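import Pool.Agent.H59.LIN.Targets

/-!
# Row CMC of lin_modules: the double points on the chord diagram
-/

set_option autoImplicit false

open Finset

namespace Pool.Agent.H49.LIN

open Pool.Agent.H59.LIN

section run

variable {n : ℕ} {α : Type}

theorem run_injective (w : List (Fin n × α)) : Function.Injective (run w) := by
  induction w with
  | nil => exact fun a b h => h
  | cons x w ih =>
    intro a b h
    have h1 : run w (tr x.1 a) = run w (tr x.1 b) := h
    exact (tr x.1).injective (ih h1)

/-- the positions along the closure are all positions -/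
theorem sum_run {M : Type} [AddCommMonoid M] {w : List (Fin n × α)} (hw : Knot w)
    (g : Fin (n + 1) → M) : ∑ j ∈ range (n + 1), g ((run w)^[j] 0) = ∑ p, g p := by
  have hP := Function.iterate_injOn_Iio_minimalPeriod (f := run w) (x := 0)
  have hper : (0 : Fin (n + 1)) ∈ Function.periodicPts (run w) :=
    (run_injective w).mem_periodicPts 0
  have hpos := Function.minimalPeriod_pos_of_mem_periodicPts hper
  set P := Function.minimalPeriod (run w) 0 with hPdef
  have himg : (range P).image (fun j => (run w)^[j] 0) = univ := by
    apply eq_univ_of_forall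
    intro p
    obtain ⟨k, hk⟩ := hw p
    rw [mem_image]
    refine ⟨k % P, mem_range.mpr (Nat.mod_lt _ hpos), ?_⟩
    rw [← hk]
    exact Function.iterate_mod_minimalPeriod_eq
  have hinj : Set.InjOn (fun j => (run w)^[j] 0) (range P : Set ℕ) := by
    intro a ha b hb h
    exact hP (Set.mem_Iio.mpr (mem_range.mp ha)) (Set.mem_Iio.mpr (mem_range.mp hb)) h
  have hcard : P = n + 1 := by
    have h1 := card_image_of_injOn hinj
    rw [himg, card_univ, Fintype.card_fin, card_range] at h1
    exact h1.symm
  have h3 : ∑ j ∈ range (n + 1), g ((run w)^[j] 0) = ∑ j ∈ range P, g ((run w)^[j] 0) := by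
    rw [hcard]
  rw [h3, ← himg, sum_image hinj]

end run

theorem sum_meets {n : ℕ} (g : List ℕ → ℕ) (hg : ∀ a b, g (a ++ b) = g a + g b) (h0 : g [] = 0)
    (k : ℕ) (i : Fin n) (s : Option Bool) (w : SWd n) :
    ∑ p, g (meets k ((i, s) :: w) p) =
      (if s = none then 2 * g [k] else 0) + ∑ p, g (meets (k + 1) w p) := by
  have h1 : ∀ p, g (meets k ((i, s) :: w) p) =
      (if s = none ∧ (p = i.castSucc ∨ p = i.succ) then g [k] else 0) +
        g (meets (k + 1) w (tr i p)) := by
    intro p
    rw [meets, hg]
    congr 1
    split_ifs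
    · rfl
    · exact h0
  rw [sum_congr rfl fun p _ => h1 p, sum_add_distrib]
  congr 1
  · by_cases hs : s = none
    · simp only [hs, true_and, if_true]
      rw [← sum_filter, sum_const]
      have h2 : (univ.filter fun p : Fin (n + 1) => p = i.castSucc ∨ p = i.succ) =
          {i.castSucc, i.succ} := by
        ext p
        simp
      rw [h2, card_pair, smul_eq_mul]
      exact (Fin.castSucc_lt_succ (i := i)).ne
    · simp [hs]
  · exact Equiv.sum_comp (tr i) fun p => g (meets (k + 1) w p)

theorem sum_count {n : ℕ} (w : SWd n) : ∀ k0 k : ℕ, ∑ p, (meets k0 w p).count k =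
    if k0 ≤ k ∧ ∃ i, w[k - k0]? = some (i, none) then 2 else 0 := by
  induction w with
  | nil =>
    intro k0 k
    rw [if_neg]
    · exact sum_eq_zero fun p _ => by rw [meets, List.count_nil]
    · rintro ⟨_, i, hi⟩
      simp at hi
  | cons x w ih =>
    intro k0 k
    obtain ⟨i, s⟩ := x
    rw [sum_meets (List.count k) (fun a b => List.count_append) List.count_nil, ih]
    rcases lt_trichotomy k k0 with h | h | h
    · have h1 : List.count k [k0] = 0 := by
        rw [List.count_singleton]
        simp [h.ne']
      have h2 : ¬ (k0 + 1 ≤ k) := by omega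
      have h3 : ¬ (k0 ≤ k) := by omega
      simp only [h1, h2, h3, false_and, if_false, mul_zero, ite_self, add_zero]
    · subst h
      have h1 : List.count k [k] = 1 := by
        rw [List.count_singleton]
        simp
      rw [h1, if_neg (fun h1 : k + 1 ≤ k ∧ _ => absurd h1.1 (by omega)), Nat.sub_self]
      simp only [le_refl, true_and, List.getElem?_cons_zero, Option.some.injEq, Prod.mk.injEq,
        add_zero, mul_one]
      by_cases hs : s = none
      · rw [if_pos hs, if_pos ⟨i, rfl, hs⟩]
      · rw [if_neg hs, if_neg]
        rintro ⟨_, _, h2⟩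
        exact hs h2
    · have h1 : List.count k [k0] = 0 := by
        rw [List.count_singleton]
        simp [h.ne]
      rw [h1]
      have h2 : k - k0 = (k - (k0 + 1)) + 1 := by omega
      rw [h2, List.getElem?_cons_succ]
      have h3 : k0 + 1 ≤ k := h
      have h4 : k0 ≤ k := h.le
      simp only [h3, h4, true_and, mul_zero, ite_self, zero_add]

theorem sum_length {n : ℕ} (w : SWd n) : ∀ k0 : ℕ, ∑ p, (meets k0 w p).length = 2 * dbl w := by
  induction w with
  | nil =>
    intro k0
    rw [sum_eq_zero fun p _ => by rw [meets, List.length_nil]]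
    rfl
  | cons x w ih =>
    intro k0
    obtain ⟨i, s⟩ := x
    rw [sum_meets List.length (fun a b => List.length_append) List.length_nil, ih]
    unfold dbl
    rw [List.countP_cons]
    cases s with
    | none => simp; ring
    | some b => simp

theorem count_gauss {n : ℕ} {w : SWd n} (hw : Knot w) (k : ℕ) :
    (gauss w).count k = if ∃ i, w[k]? = some (i, none) then 2 else 0 := by
  unfold gauss
  rw [List.count_flatMap]
  have h1 := sum_run hw fun p => (meets 0 w p).count k
  rw [sum_count] at h1
  simp only [Nat.zero_le, true_and, Nat.sub_zero] at h1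
  rw [← h1]
  rfl

theorem length_gauss {n : ℕ} {w : SWd n} (hw : Knot w) : (gauss w).length = 2 * dbl w := by
  unfold gauss
  rw [List.length_flatMap]
  have h1 := sum_run hw fun p => (meets 0 w p).length
  rw [sum_length] at h1
  rw [← h1]
  rfl

theorem mem_gauss {n : ℕ} {w : SWd n} (hw : Knot w) (k : ℕ) :
    k ∈ gauss w ↔ ∃ i, w[k]? = some (i, none) := by
  rw [← List.count_pos_iff, count_gauss hw]
  split_ifs with h
  · exact ⟨fun _ => h, fun _ => by norm_num⟩
  · exact ⟨fun h1 => absurd h1 (lt_irrefl _), fun h1 => absurd h1 h⟩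

theorem count_ofFn' {N : ℕ} (g : Fin N → ℕ) (k : ℕ) :
    (List.ofFn g).count k = (univ.filter fun x => g x = k).card := by
  have h1 : ((List.ofFn g : List ℕ) : Multiset ℕ) = (univ : Finset (Fin N)).val.map g :=
    (Fin.univ_val_map g).symm
  rw [← Multiset.coe_count, h1, Multiset.count_map, Finset.card, Finset.filter_val]
  congr 2
  funext x
  exact propext ⟨fun h => h.symm, fun h => h.symm⟩

theorem pf_CMC : T_CMC := by
  refine ⟨?_, ?_, ?_⟩
  · intro n w d D t hw _ hg k
    rw [← mem_gauss hw k, hg, List.mem_ofFn]
    constructor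
    · rintro ⟨a, ha⟩
      exact ⟨D.symm (a, false), by simpa using ha⟩
    · rintro ⟨x, hx⟩
      exact ⟨(D x).1, hx⟩
  · intro n w hw
    classical
    have hg : ∀ N, (gauss w).length = N → ∃ g : Fin N → ℕ, gauss w = List.ofFn g := by
      rintro N rfl
      exact ⟨(gauss w).get, (List.ofFn_get _).symm⟩
    obtain ⟨g, hg⟩ := hg _ (length_gauss hw)
    set S : Finset ℕ := univ.image g with hS
    have hc : ∀ k ∈ S, (univ.filter fun x => g x = k).card = 2 := by
      intro k hk
      rw [← count_ofFn', ← hg]
      have h1 : k ∈ gauss w := by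
        rw [hS, mem_image] at hk
        obtain ⟨x, _, hx⟩ := hk
        rw [hg, List.mem_ofFn]
        exact ⟨x, hx⟩
      rw [count_gauss hw, if_pos ((mem_gauss hw k).mp h1)]
    have hSc : S.card = dbl w := by
      have h1 := card_eq_sum_card_fiberwise (f := g) (s := univ) (t := S)
        (fun x _ => mem_coe.mpr (mem_image_of_mem _ (mem_univ _)))
      rw [sum_congr rfl hc, sum_const, card_univ, Fintype.card_fin, smul_eq_mul] at h1
      omega
    set e : S ≃ Fin (dbl w) := S.equivFinOfCardEq hSc with he
    set f : Fin (2 * dbl w) → Fin (dbl w) :=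
      fun x => e ⟨g x, mem_image_of_mem _ (mem_univ _)⟩ with hf
    have hfx : ∀ x a, f x = a ↔ g x = (e.symm a : ℕ) := by
      intro x a
      rw [hf]
      constructor
      · intro h
        rw [← h]
        simp
      · intro h
        apply e.symm.injective
        apply Subtype.ext
        rw [← h]
        simp
    have hcard : ∀ a, Fintype.card {x // f x = a} = Fintype.card Bool := by
      intro a
      rw [Fintype.card_subtype, Fintype.card_bool]
      refine Eq.trans ?_ (hc _ (e.symm a).2)
      congr 1
      ext x
      simp only [mem_filter, mem_univ, true_and]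
      exact hfx x a
    refine ⟨(Equiv.sigmaFiberEquiv f).symm.trans
      ((Equiv.sigmaCongrRight fun a => Fintype.equivOfCardEq (hcard a)).trans
        (Equiv.sigmaEquivProd _ _)), fun a => (e.symm a : ℕ), ?_, ?_⟩
    · intro a b hab
      exact e.symm.injective (Subtype.ext hab)
    · rw [hg]
      congr 1
      funext x
      exact (hfx x (f x)).mp rfl
  · intro n w d D hw hR
    obtain ⟨t, _, hg⟩ := hR
    have h1 := length_gauss hw
    rw [hg, List.length_ofFn] at h1
    omega

end Pool.Agent.H49.LIN
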